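import Mathlib
import Pool.Agent.Lib.MP_5f5f24_nt.AutoB
import Pool.Agent.Lib.MP_5f5f24_nt.AutoL

set_option autoImplicit false

namespace Pool.Agent.Results.MP_5f5f24_nt.AutomaticSequence

open Polynomial Pool.Agent.Lib.MP_5f5f24_nt

/-- Let `u` be a sequence of nonzero elements of a finite field which is `k`-automatic for some
`k ≥ 2` (its `k`-kernel is finite), or whose generating power series is algebraic.  Then infinitely
many of the truncations `u_m X^m + ... + u_1 X + u_0` are reducible. -/
theorem result {F : Type*} [Field F] [Finite F] (u : ℕ → F) (hu : ∀ n, u n ≠ 0)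
    (h : (∃ k : ℕ, 2 ≤ k ∧
        {w : ℕ → F | ∃ a b : ℕ, b < k ^ a ∧ w = fun n => u (k ^ a * n + b)}.Finite) ∨
      IsAlgebraic F[X] (PowerSeries.mk u : PowerSeries F)) :
    {m : ℕ | ¬ Irreducible (∑ i ∈ Finset.range (m + 1), C (u i) * X ^ i : F[X])}.Infinite := by
  classical
  have : Fintype F := Fintype.ofFinite F
  rcases h with ⟨k, hk, hker⟩ | halg
  · refine infinite_reducible_of_k_kernel u hu k hk _ hker ⟨0, 0, by simp, by simp⟩ ?_
    rintro w ⟨a, b, hb, rfl⟩ r hr
    refine ⟨a + 1, k ^ a * r + b, ?_, ?_⟩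
    · have h1 : k ^ a * (r + 1) ≤ k ^ a * k := Nat.mul_le_mul_left _ hr
      calc k ^ a * r + b < k ^ a * (r + 1) := by rw [mul_add, mul_one]; omega
        _ ≤ k ^ a * k := h1
        _ = k ^ (a + 1) := by rw [pow_succ]
    · funext n
      simp only
      congr 1
      ring
  · have hP0 : (PowerSeries.mk u : PowerSeries F) ≠ 0 := by
      intro h
      have := congrArg (PowerSeries.coeff 0) h
      rw [PowerSeries.coeff_mk, map_zero] at this
      exact hu 0 this
    obtain ⟨S, hSfin, hPS, hstab⟩ := exists_finite_stable (PowerSeries.mk u) halg hP0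
    let cf : PowerSeries F → (ℕ → F) := fun G n => PowerSeries.coeff n G
    have hmain := infinite_reducible_of_k_kernel u hu (Fintype.card F) Fintype.one_lt_card
      (cf '' S) (hSfin.image cf) ⟨_, hPS, by funext n; simp [cf]⟩ (by
        rintro w ⟨G, hG, rfl⟩ r hr
        refine ⟨lam r G, hstab G hG r hr, ?_⟩
        funext n
        simp [cf, coeff_lam])
    exact hmain

end Pool.Agent.Results.MP_5f5f24_nt.AutomaticSequence
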