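import Pool.Agent.Lib.MP_5f5f24_nt.NB.All26

/-!
# Small factors of `f_n` can be avoided for all large `n` exactly from four elements on
(MP_5f5f24_nt)

Let `F` be a finite field with `q` elements and, for a sequence `u` of nonzero elements of `F`,
`f_n = u_0 + u_1 X + ... + u_n X ^ n`.

1. If `q ≥ 4`, then for every `K` every finite word of nonzero elements extends to an infinite
   sequence of nonzero elements such that, for all large `n`, every irreducible factor of `f_n` has
   degree larger than `K`.
2. If `q ≤ 3`, then for every sequence of nonzero elements infinitely many `f_n` have a root in `F`.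

Proof of 1. It is enough to find a tail: a sequence `a` of nonzero elements such that for every
nonzero `α` in an extension field `L` some `c` in `L` has `c + ∑_{i<n} a_i α ^ i ≠ 0` for all `n`
(`Core26`: Chinese remainder for the irreducible polynomials of degree at most `K`, two blocks of
length `T = ∏ (q ^ k - 1)` of nonzero letters realise every residue modulo `X ^ T - 1`).
Tails: `q` not prime: `1, 1, 1, ...` with `c = 1 / (α - 1)`, and `c` outside the prime field for
`α = 1`; a nonsquare `κ` of order less than `q - 1`: `1, 1, κ, κ, κ ^ 2, κ ^ 2, ...`; Fermat primes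
`q ≥ 17`: period `1, 1, -2`; `q = 5`: period `1, 2, 2, 1, -1, -2, -2, -1`.
-/

set_option autoImplicit false

namespace Pool.Agent.Results.MP_5f5f24_nt.NoBoundedObstruction

open Finset Polynomial

universe v

theorem result (F : Type v) [Field F] [Finite F] :
    (4 ≤ Nat.card F → ∀ (K l : ℕ) (w : ℕ → F), (∀ i, w i ≠ 0) →
      ∃ u : ℕ → F, (∀ i, u i ≠ 0) ∧ (∀ i < l, u i = w i) ∧ ∃ N : ℕ, ∀ n : ℕ, N ≤ n →
        ∀ g : F[X], Irreducible g → g ∣ ∑ i ∈ range (n + 1), C (u i) * X ^ i → K < g.natDegree) ∧
    (Nat.card F ≤ 3 → ∀ u : ℕ → F, (∀ i, u i ≠ 0) → ∀ N : ℕ, ∃ n : ℕ, N ≤ n ∧ ∃ x : F,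
      (∑ i ∈ range (n + 1), C (u i) * X ^ i : F[X]).eval x = 0) :=
  ⟨fun h4 => Pool.Agent.Lib.MP_5f5f24_nt.NB.allNB F h4,
    fun h3 => Pool.Agent.Lib.MP_5f5f24_nt.NB.allNeg F h3⟩

end Pool.Agent.Results.MP_5f5f24_nt.NoBoundedObstruction
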