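import Mathlib

/-!
# Long periodic blocks of consecutive irreducible sequences are isolated

`u` is a sequence of nonzero elements of a finite field `F` with `q` elements and
`trunc u m = u_m X^m + … + u_1 X + u_0`.
-/

set_option autoImplicit false

open Polynomial

namespace Pool.Agent.Results.MP_5f5f24_nt.PeriodicBlocks

/-- `f_m = u_m X^m + … + u_1 X + u_0`. -/
noncomputable def trunc {F : Type*} [Field F] (u : ℕ → F) (m : ℕ) : F[X] :=
  ∑ i ∈ Finset.range (m + 1), C (u i) * X ^ i

/-- `u` has period `p` up to the factor `c` on the block `[a, b)`. -/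
def PeriodicOn {F : Type*} [Field F] (u : ℕ → F) (p : ℕ) (c : F) (a b : ℕ) : Prop :=
  ∀ n, a ≤ n → n + p < b → u (n + p) = c * u n

/-- No `f_m` with `m` in `[a, b)` has an irreducible factor of degree `k`. -/
def Free {F : Type*} [Field F] (u : ℕ → F) (k a b : ℕ) : Prop :=
  ∀ m, a ≤ m → m < b → ∀ g : F[X], Irreducible g → g.natDegree = k → ¬ g ∣ trunc u m

/-- The partial sums. -/
noncomputable def S {K : Type*} [Field K] (v : ℕ → K) (x : K) (n : ℕ) : K :=
  ∑ i ∈ Finset.range n, v i * x ^ i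

theorem S_succ {K : Type*} [Field K] (v : ℕ → K) (x : K) (n : ℕ) :
    S v x (n + 1) = S v x n + v n * x ^ n := by
  simp only [S, Finset.sum_range_succ]

/-- The invariant of a periodic block vanishes. -/
theorem block {K : Type*} [Field K] (v : ℕ → K) (hv : ∀ n, v n ≠ 0) {x y c : K} (hx : x ≠ 0)
    {p a b N : ℕ} (hy : y = c * x ^ p) (hN : ∀ z : K, z ≠ 0 → ∃ j < N, y ^ j = z) (h1 : y ≠ 1)
    (hb : a + 2 + (N - 1) * p ≤ b) (hper : ∀ n, a ≤ n → n + p < b → v (n + p) = c * v n)
    (hne : ∀ n, a < n → n ≤ b → S v x n ≠ 0) :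
    ∀ n, a ≤ n → n + p ≤ b → S v x (n + p) = y * S v x n := by
  -- invariance
  have hinv : ∀ n, a ≤ n → n + p ≤ b →
      y * S v x n - S v x (n + p) = y * S v x a - S v x (a + p) := by
    intro n hn
    induction n, hn using Nat.le_induction with
    | base => intro _; rfl
    | succ n hn ih =>
      intro h
      have h2 := ih (by omega)
      have h3 := hper n hn (by omega)
      have h4 : n + 1 + p = (n + p) + 1 := by ring
      rw [h4, S_succ, S_succ, h3, ← h2, pow_add, hy]
      ring
  set D := y * S v x a - S v x (a + p) with hD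
  by_cases hD0 : D = 0
  · intro n hn hnb
    have := hinv n hn hnb
    rw [hD0] at this
    exact (sub_eq_zero.1 this).symm
  exfalso
  have hy1 : y - 1 ≠ 0 := sub_ne_zero.2 h1
  set E := D / (y - 1) with hE
  have hE0 : E ≠ 0 := div_ne_zero hD0 hy1
  have hED : y * E - D = E := by
    rw [hE]; field_simp; ring
  -- a starting point
  obtain ⟨n0, hn0, hn1, hn2⟩ : ∃ n0, a < n0 ∧ n0 ≤ a + 2 ∧ S v x n0 ≠ E := by
    by_cases h : S v x (a + 1) = E
    · refine ⟨a + 2, by omega, le_rfl, fun h' => ?_⟩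
      have h2 : S v x (a + 1 + 1) = S v x (a + 1) + v (a + 1) * x ^ (a + 1) := S_succ v x (a + 1)
      have h3 : v (a + 1) * x ^ (a + 1) = 0 := by
        have h4 : S v x (a + 1 + 1) = E := h'
        rw [h4, h] at h2
        simpa using h2.symm
      exact mul_ne_zero (hv _) (pow_ne_zero _ hx) h3
    · exact ⟨a + 1, by omega, by omega, h⟩
  have hz : S v x n0 - E ≠ 0 := sub_ne_zero.2 hn2
  obtain ⟨j, hj, hj2⟩ := hN (-E / (S v x n0 - E)) (div_ne_zero (neg_ne_zero.2 hE0) hz)
  have hj3 : n0 + j * p ≤ b := by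
    have : j * p ≤ (N - 1) * p := Nat.mul_le_mul_right _ (by omega)
    omega
  have key : ∀ i, n0 + i * p ≤ b → S v x (n0 + i * p) = y ^ i * (S v x n0 - E) + E := by
    intro i
    induction i with
    | zero => intro _; simp
    | succ i ih =>
      intro h
      have h5 : n0 + (i + 1) * p = (n0 + i * p) + p := by ring
      have h6 := ih (by rw [h5] at h; omega)
      have h7 := hinv (n0 + i * p) (by omega) (by rw [← h5]; exact h)
      rw [h5]
      have h8 : S v x (n0 + i * p + p) = y * S v x (n0 + i * p) - D := by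
        rw [← h7]; ring
      rw [h8, h6, pow_succ]
      linear_combination hED
  have h9 := key j hj3
  rw [hj2, div_mul_cancel₀ _ hz, neg_add_cancel] at h9
  exact hne _ (by omega) hj3 h9

/-- A generator of the multiplicative group. -/
theorem gen {K : Type*} [Field K] [Finite K] (hK : 2 < Nat.card K) {y : K}
    (hy : orderOf y = Nat.card K - 1) :
    y ≠ 0 ∧ y ≠ 1 ∧ ∀ z : K, z ≠ 0 → ∃ j < Nat.card K - 1, y ^ j = z := by
  classical
  let _ : Fintype K := Fintype.ofFinite K
  have hcU : Fintype.card Kˣ = Nat.card K - 1 := by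
    rw [Fintype.card_units, ← Nat.card_eq_fintype_card]
  have h0 : y ≠ 0 := by
    rintro rfl
    have h := pow_orderOf_eq_one (0 : K)
    rw [hy, zero_pow (by omega)] at h
    exact zero_ne_one h
  refine ⟨h0, ?_, fun z hz => ?_⟩
  · rintro rfl
    rw [orderOf_one] at hy
    omega
  · set h : Kˣ := Units.mk0 y h0 with hh
    have hord : orderOf h = Nat.card K - 1 := by
      rw [← orderOf_units, ← hy]; rfl
    have h1 : Units.mk0 z hz ∈ Submonoid.powers h := by
      rw [mem_powers_iff_mem_zpowers]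
      have : Subgroup.zpowers h = ⊤ := by
        rw [← Subgroup.card_eq_iff_eq_top, Nat.card_zpowers, hord, ← hcU,
          Nat.card_eq_fintype_card]
      rw [this]; trivial
    rw [mem_powers_iff_mem_range_orderOf] at h1
    obtain ⟨j, hj, hj2⟩ := Finset.mem_image.1 h1
    refine ⟨j, by rw [← hord]; exact Finset.mem_range.1 hj, ?_⟩
    have := congrArg Units.val hj2
    simpa [hh] using this

/-- If `c x ^ p` is a generator, then `x` has degree `[K : F]`. -/
theorem min_gen {F K : Type*} [Field F] [Field K] [Algebra F K] [Finite K] (hK : 2 < Nat.card K)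
    {c : F} {p : ℕ} {x : K} (hp : 0 < p)
    (hy : orderOf (algebraMap F K c * x ^ p) = Nat.card K - 1) :
    x ≠ 0 ∧ ∃ g : F[X], Irreducible g ∧ g.natDegree = Module.finrank F K ∧
        ∀ f : F[X], aeval x f = 0 → g ∣ f := by
  obtain ⟨h0, h1, h2⟩ := gen hK hy
  refine ⟨fun h => h0 ?_, minpoly F x, minpoly.irreducible (Algebra.IsIntegral.isIntegral _),
    ?_, fun f hf => minpoly.dvd F _ hf⟩
  · rw [h, zero_pow hp.ne', mul_zero]
  · have htop : IntermediateField.adjoin F {x} = ⊤ := by
      rw [eq_top_iff]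
      rintro z -
      by_cases hz : z = 0
      · rw [hz]; exact zero_mem _
      · obtain ⟨j, -, hj⟩ := h2 z hz
        rw [← hj]
        exact pow_mem (mul_mem (IntermediateField.algebraMap_mem _ c)
          (pow_mem (IntermediateField.mem_adjoin_simple_self F x) p)) j
    rw [← IntermediateField.adjoin.finrank (Algebra.IsIntegral.isIntegral _), htop,
      IntermediateField.finrank_top']

/-- The `x` for which `e x ^ p` generates the multiplicative group of `K`. -/
def Gens {F : Type*} (K : Type*) [Field F] [Field K] [Algebra F K] (p : ℕ) (e : F) : Set K :=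
  {x | orderOf (algebraMap F K e * x ^ p) = Nat.card K - 1}

theorem aeval_trunc {F K : Type*} [Field F] [Field K] [Algebra F K] (u : ℕ → F) (m : ℕ) (x : K) :
    aeval x (trunc u m) = S (fun n => algebraMap F K (u n)) x (m + 1) := by
  simp [trunc, S, map_sum]

/-- Partial sums as polynomials. -/
noncomputable def T {F : Type*} [Field F] (d : ℕ → F) (n : ℕ) : F[X] :=
  ∑ i ∈ Finset.range n, C (d i) * X ^ i

theorem aeval_T {F K : Type*} [Field F] [Field K] [Algebra F K] (u : ℕ → F) (m : ℕ) (x : K) :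
    aeval x (T u m) = S (fun n => algebraMap F K (u n)) x m := by
  simp [T, S, map_sum]

theorem coeff_T {F : Type*} [Field F] (d : ℕ → F) (n i : ℕ) :
    (T d n).coeff i = if i < n then d i else 0 := by
  simp only [T, finsetSum_coeff, coeff_C_mul, coeff_X_pow]
  by_cases hk : i < n
  · rw [if_pos hk, Finset.sum_eq_single i]
    · simp
    · intro b _ hb; simp [Ne.symm hb]
    · intro h; exact absurd (Finset.mem_range.mpr hk) h
  · rw [if_neg hk]
    apply Finset.sum_eq_zero
    intro b hb
    have : i ≠ b := by have := Finset.mem_range.mp hb; omega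
    simp [this]

/-- A polynomial of small degree which vanishes at all generators is zero. -/
theorem eq_zero_of_gens {F K : Type*} [Field F] [Field K] [Algebra F K] (G : Finset K) (R : F[X])
    (hG : ∀ x ∈ G, aeval x R = 0) (n : ℕ) (hn : n ≤ G.card) (hR : ∀ i, n ≤ i → R.coeff i = 0)
    (hn0 : 0 < n) : R = 0 := by
  classical
  have h1 : (R.map (algebraMap F K)) = 0 := by
    refine Polynomial.eq_zero_of_natDegree_lt_card_of_eval_eq_zero' _ G (fun x hx => ?_) ?_
    · rw [eval_map_algebraMap]; exact hG x hx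
    · refine lt_of_lt_of_le ?_ hn
      rw [natDegree_map]
      by_contra h
      rw [not_lt] at h
      have h2 : R.coeff R.natDegree = 0 := hR _ h
      have h3 : R = 0 := leadingCoeff_eq_zero.1 h2
      rw [h3, natDegree_zero] at h
      omega
  exact (Polynomial.map_eq_zero _).1 h1

/-- On a long block of period `p` the recurrence `f_{m+p}(x) = c x^p f_m(x)` holds at the
generators. -/
theorem block_gens {F K : Type*} [Field F] [Field K] [Algebra F K] [Finite K]
    (hK : 2 < Nat.card K) {u : ℕ → F}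
    (hu : ∀ n, u n ≠ 0) {p a b N : ℕ} {c : F} {x : K} (hx : x ∈ Gens K p c)
    (hp : 0 < p) (hN : N = Nat.card K - 1) (hab : a + p * (N + 1) ≤ b)
    (hfree : Free u (Module.finrank F K) a b) (hper : PeriodicOn u p c a b) :
    ∀ n, a ≤ n → n + p ≤ b → S (fun n => algebraMap F K (u n)) x (n + p) =
      algebraMap F K c * x ^ p * S (fun n => algebraMap F K (u n)) x n := by
  obtain ⟨hx0, hg⟩ := min_gen hK hp hx
  obtain ⟨-, h1, h2⟩ := gen hK hx
  rw [← hN] at h2
  refine block _ (fun n => ?_) hx0 rfl h2 h1 (N := N) ?_ (fun n hn hnb => ?_)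
    (fun n hn hnb h => ?_)
  · simpa using hu n
  · obtain ⟨M, hM⟩ : ∃ M, N = M + 1 := ⟨N - 1, by omega⟩
    rw [hM] at hab ⊢
    have h2 : p * (M + 1 + 1) = (M + 1 - 1) * p + 2 * p := by
      rw [Nat.add_sub_cancel]; ring
    rw [h2] at hab
    omega
  · simp only [hper n hn hnb, map_mul]
  · obtain ⟨g, hg1, hg2, hg3⟩ := hg
    obtain ⟨m, rfl⟩ : ∃ m, n = m + 1 := ⟨n - 1, by omega⟩
    exact hfree m (by omega) (by omega) g hg1 hg2 (hg3 _ (by rw [aeval_trunc]; exact h))

/-- The difference of the two sides of `f_{m+p}(x) = c x^p f_m(x)`. -/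
theorem diff {K : Type*} [Field K] (v : ℕ → K) (x e : K) (p c : ℕ) (n : ℕ) :
    e * x ^ p * S v x (c + n) - S v x (c + n + p) =
      e * x ^ p * S v x c - S v x (c + p) +
        x ^ (c + p) * S (fun i => e * v (c + i) - v (c + i + p)) x n := by
  induction n with
  | zero => simp [S]
  | succ n ih =>
    have h1 : c + (n + 1) = c + n + 1 := by ring
    have h2 : c + (n + 1) + p = c + n + p + 1 := by ring
    rw [h2, h1, S_succ, S_succ, S_succ]
    linear_combination ih

/-- Two long periodic blocks with a small distance form one block. -/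
theorem glue {F : Type*} [Field F] (u : ℕ → F) (hu : ∀ n, u n ≠ 0) (K : Type*)
    [Field K] [Algebra F K] [Finite K] (hK : 2 < Nat.card K) (p p' a b a' b' : ℕ) (e e' : F)
    (hp : 0 < p) (hp' : 0 < p')
    (hab : a + p * Nat.card K ≤ b) (hba : b ≤ a') (hab' : a' + p' * Nat.card K ≤ b')
    (hr : a' - b + p + p' ≤ (Gens K p e ∩ Gens K p' e').ncard)
    (hf : Free u (Module.finrank F K) a b) (hf' : Free u (Module.finrank F K) a' b')
    (hper : PeriodicOn u p e a b) (hper' : PeriodicOn u p' e' a' b') :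
    PeriodicOn u p e a b' := by
  classical
  obtain ⟨G, hG, hGx⟩ : ∃ G : Finset K, G.card = (Gens K p e ∩ Gens K p' e').ncard ∧
      ∀ x ∈ G, x ∈ Gens K p e ∧ x ∈ Gens K p' e' :=
    ⟨(Set.toFinite (Gens K p e ∩ Gens K p' e')).toFinset,
      (Set.ncard_eq_toFinset_card _ _).symm, fun x hx =>
        (Set.Finite.mem_toFinset (Set.toFinite (Gens K p e ∩ Gens K p' e'))).1 hx⟩
  set N := Nat.card K - 1 with hN
  have hN1 : Nat.card K = N + 1 := by omega
  have h2l : a' + p + p' ≤ b' := by
    have h1 : (Gens K p e ∩ Gens K p' e').ncard ≤ Nat.card K := Set.ncard_le_card _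
    have h2 : 1 * Nat.card K ≤ p' * Nat.card K := Nat.mul_le_mul_right _ hp'
    omega
  rw [hN1] at hab hab'
  have hpb : p ≤ b := by
    have : p * 1 ≤ p * (N + 1) := Nat.mul_le_mul_left _ (by omega)
    omega
  obtain ⟨c, rfl⟩ : ∃ c, b = c + p := ⟨b - p, by omega⟩
  obtain ⟨r, rfl⟩ : ∃ r, a' = c + p + r := ⟨a' - (c + p), by omega⟩
  have hac : a ≤ c := by
    have : p * 1 ≤ p * (N + 1) := Nat.mul_le_mul_left _ (by omega)
    omega
  set d : ℕ → F := fun i => e * u (c + i) - u (c + i + p) with hd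
  -- the polynomial identity
  have hR : T d (r + p + p') - C e' * (X ^ p' * T d (r + p)) = 0 := by
    refine eq_zero_of_gens G _ (fun x hx => ?_) (r + p + p') (by rw [hG]; omega)
      (fun i hi => ?_) (by omega)
    · obtain ⟨hx1, hx2⟩ := hGx x hx
      have hx0 : x ≠ 0 := (min_gen hK hp hx1).1
      set v : ℕ → K := fun n => algebraMap F K (u n) with hv
      have e1 := block_gens hK hu hx1 hp hN hab hf hper
      have e2 := block_gens hK hu hx2 hp' hN hab' hf' hper'
      have e3 := e1 c hac le_rfl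
      have e4 := e2 (c + p + r) le_rfl (by omega)
      have e5 := e2 (c + p + r + p) (by omega) (by omega)
      have e6 := diff v x (algebraMap F K e) p c (r + p)
      have e7 := diff v x (algebraMap F K e) p c (r + p + p')
      have e8 : ∀ n, aeval x (T d n) =
          S (fun i => algebraMap F K e * v (c + i) - v (c + i + p)) x n := by
        intro n
        rw [aeval_T]
        simp only [hd, map_sub, map_mul, hv]
      rw [map_sub, map_mul, map_mul, map_pow, aeval_X, aeval_C, e8, e8]
      have e9 : x ^ (c + p) ≠ 0 := pow_ne_zero _ hx0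
      refine (mul_right_inj' e9).1 ?_
      rw [mul_zero]
      have i1 : c + (r + p) = c + p + r := by ring
      have i2 : c + (r + p + p') = c + p + r + p' := by ring
      have i3 : c + (r + p + p') + p = c + p + r + p + p' := by ring
      have i4 : c + (r + p) + p = c + p + r + p := by ring
      rw [i4, i1] at e6
      rw [i3, i2] at e7
      rw [e3, sub_self, zero_add] at e6 e7
      rw [e4, e5] at e7
      linear_combination algebraMap F K e' * x ^ p' * e6 - e7
    · rw [coeff_sub, coeff_T, if_neg (by omega), coeff_C_mul, coeff_X_pow_mul', coeff_T]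
      by_cases h : p' ≤ i
      · rw [if_pos h, if_neg (by omega), mul_zero, sub_self]
      · rw [if_neg h, mul_zero, sub_self]
  -- all differences vanish
  have h0 : ∀ i, c + i + p < b' → d i = 0 := by
    intro i
    induction i using Nat.strong_induction_on with
    | _ i ih =>
      intro hi
      by_cases h1 : i < r + p + p'
      · have h2 := congrArg (fun f => Polynomial.coeff f i) hR
        simp only [coeff_sub, coeff_T, if_pos h1, coeff_C_mul, coeff_X_pow_mul', coeff_zero] at h2
        by_cases h3 : p' ≤ i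
        · rw [if_pos h3, if_pos (by omega), ih (i - p') (by omega) (by omega), mul_zero,
            sub_zero] at h2
          exact h2
        · rw [if_neg h3, mul_zero, sub_zero] at h2
          exact h2
      · have h2 := ih (i - p') (by omega) (by omega)
        have h3 := hper' (c + (i - p')) (by omega) (by omega)
        have h4 := hper' (c + (i - p') + p) (by omega) (by omega)
        have i1 : c + (i - p') + p' = c + i := by omega
        have i2 : c + (i - p') + p + p' = c + i + p := by omega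
        rw [i1] at h3
        rw [i2] at h4
        simp only [hd] at h2 ⊢
        rw [h3, h4]
        linear_combination e' * h2
  intro n hn hnb
  by_cases h : n + p < c + p
  · exact hper n hn h
  · have h1 := h0 (n - c) (by omega)
    simp only [hd] at h1
    have i1 : c + (n - c) = n := by omega
    rw [i1] at h1
    exact (sub_eq_zero.1 h1).symm

/-- A long periodic block does not start early. -/
theorem early {F : Type*} [Field F] (u : ℕ → F) (hu : ∀ n, u n ≠ 0) (K : Type*)
    [Field K] [Algebra F K] [Finite K] (hK : 2 < Nat.card K) (p a b : ℕ) (e : F) (hp : 0 < p)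
    (hab : a + p * Nat.card K ≤ b) (hf : Free u (Module.finrank F K) a b)
    (hper : PeriodicOn u p e a b) : (Gens K p e).ncard < a + p := by
  classical
  by_contra hlt
  rw [not_lt] at hlt
  obtain ⟨G, hG, hGx⟩ : ∃ G : Finset K, G.card = (Gens K p e).ncard ∧ ∀ x ∈ G, x ∈ Gens K p e :=
    ⟨(Set.toFinite (Gens K p e)).toFinset,
      (Set.ncard_eq_toFinset_card _ _).symm, fun x hx => (Set.Finite.mem_toFinset _).1 hx⟩
  set N := Nat.card K - 1 with hN
  have hN1 : Nat.card K = N + 1 := by omega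
  rw [hN1] at hab
  have hpb : a + p ≤ b := by
    have : p * 1 ≤ p * (N + 1) := Nat.mul_le_mul_left _ (by omega)
    omega
  have hR : T u (a + p) - C e * (X ^ p * T u a) = 0 := by
    refine eq_zero_of_gens G _ (fun x hx => ?_) (a + p) (by rw [hG]; omega)
      (fun i hi => ?_) (by omega)
    · have e1 := block_gens hK hu (hGx x hx) hp hN hab hf hper
      rw [map_sub, map_mul, map_mul, map_pow, aeval_X, aeval_C, aeval_T, aeval_T, e1 a le_rfl hpb]
      ring
    · rw [coeff_sub, coeff_T, if_neg (by omega), coeff_C_mul, coeff_X_pow_mul', coeff_T]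
      by_cases h : p ≤ i
      · rw [if_pos h, if_neg (by omega), mul_zero, sub_self]
      · rw [if_neg h, mul_zero, sub_self]
  have h2 := congrArg (fun f => Polynomial.coeff f 0) hR
  simp only [coeff_sub, coeff_T, if_pos (show 0 < a + p by omega), coeff_C_mul, coeff_X_pow_mul',
    coeff_zero, if_neg (show ¬ p ≤ 0 by omega), mul_zero, sub_zero] at h2
  exact hu 0 h2

theorem le_totient {q k : ℕ} (hq : 2 ≤ q) (hk : 2 ≤ k) : k ≤ Nat.totient (q ^ k - 1) := by
  rw [Nat.totient_eq_card_coprime]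
  have h1 : 1 ≤ q ^ k := Nat.one_le_pow _ _ (by omega)
  calc k = (Finset.range k).card := (Finset.card_range k).symm
    _ ≤ _ := Finset.card_le_card_of_injOn (fun i => q ^ i) (fun i hi => ?_)
      (fun i _ j _ h => Nat.pow_right_injective hq h)
  have hi' : i < k := Finset.mem_range.1 hi
  refine Finset.mem_coe.2 (Finset.mem_filter.2 ⟨Finset.mem_range.2 ?_, ?_⟩)
  · obtain ⟨j, rfl⟩ : ∃ j, k = j + 1 := ⟨k - 1, by omega⟩
    show q ^ i < q ^ (j + 1) - 1
    have h2 : q ^ i ≤ q ^ j := Nat.pow_le_pow_right (by omega) (by omega)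
    have h3 : 2 ^ 1 ≤ q ^ j :=
      (Nat.pow_le_pow_right (by omega) (by omega)).trans (Nat.pow_le_pow_left hq j)
    have h4 : q ^ (j + 1) = q ^ j * q := pow_succ q j
    have h5 : q ^ j * 2 ≤ q ^ j * q := Nat.mul_le_mul_left _ hq
    omega
  · refine Nat.Coprime.pow_right i ?_
    have h2 : Nat.Coprime (q ^ k - 1) (q ^ k) := by
      have h3 : q ^ k = (q ^ k - 1) + 1 := by omega
      conv_rhs => rw [h3]
      exact Nat.coprime_self_add_right.2 (Nat.coprime_one_right _)
    exact Nat.Coprime.coprime_dvd_right (dvd_pow_self q (by omega)) h2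

/-- A prime factor `l` of `q - 1`, `q - 1` dividing `k`, divides `(q ^ k - 1) / (q - 1)`. -/
theorem dvd_quot {q k w o l : ℕ} (hq : 2 ≤ q) (hk : q - 1 ∣ k) (ho : q - 1 = o * w)
    (hl : l ∣ o) : l ∣ (q ^ k - 1) / o := by
  have h1 : q ^ k - 1 = (q - 1) * ∑ i ∈ Finset.range k, q ^ i := by
    have h2 := Nat.geomSum_eq hq k
    have h3 : (q - 1) ∣ q ^ k - 1 := by
      simpa using Nat.sub_dvd_pow_sub_pow q 1 k
    rw [h2, Nat.mul_div_cancel' h3]
  have h6 : 0 < o := Nat.pos_of_ne_zero fun h => by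
    rw [h, zero_mul] at ho; omega
  have h7 : l ∣ q - 1 := hl.trans ⟨w, ho⟩
  rw [h1, ho, mul_assoc, Nat.mul_div_cancel_left _ h6]
  refine Dvd.dvd.mul_left ?_ _
  have h8 : (1 : ℕ) ≡ q [MOD l] := (Nat.modEq_iff_dvd' (by omega)).2 h7
  have h10 : ∀ n : ℕ, (∑ i ∈ Finset.range n, q ^ i) ≡ ∑ i ∈ Finset.range n, 1 ^ i [MOD l] := by
    intro n
    induction n with
    | zero => exact Nat.ModEq.refl _
    | succ n ih =>
      rw [Finset.sum_range_succ, Finset.sum_range_succ]
      exact ih.add (h8.symm.pow n)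
  rw [← Nat.modEq_zero_iff_dvd]
  refine (h10 k).trans ?_
  simp only [one_pow, Finset.sum_const, Finset.card_range, smul_eq_mul, mul_one]
  exact (Nat.modEq_zero_iff_dvd).2 (h7.trans hk)

/-- If `p` is prime to `|K| - 1` and `e = 1` or `q - 1` divides `[K : F]`, all generators `x` are
in `Gens K p e`. -/
theorem mem_gens {F : Type*} [Field F] [Finite F] {K : Type*} [Field K] [Algebra F K] [Finite K]
    (hK : 2 < Nat.card K) {p : ℕ} {e : F} (hp : p.Coprime (Nat.card K - 1)) (he : e ≠ 0)
    (hk : e = 1 ∨ Nat.card F - 1 ∣ Module.finrank F K) {x : K}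
    (hx : orderOf x = Nat.card K - 1) : x ∈ Gens K p e := by
  classical
  let _ : Fintype F := Fintype.ofFinite F
  let _ : Fintype K := Fintype.ofFinite K
  have hq : 2 ≤ Nat.card F := by
    rw [Nat.card_eq_fintype_card]; exact Fintype.one_lt_card
  have hcK : Nat.card K = Nat.card F ^ Module.finrank F K := by
    rw [Nat.card_eq_fintype_card, Nat.card_eq_fintype_card]
    exact Module.card_eq_pow_finrank
  have hdvd1 : orderOf e ∣ Nat.card F - 1 := by
    rw [Nat.card_eq_fintype_card]
    exact orderOf_dvd_of_pow_eq_one (FiniteField.pow_card_sub_one_eq_one e he)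
  have hce : ∀ l : ℕ, l.Prime → l ∣ orderOf e → l ∣ (Nat.card K - 1) / orderOf e := by
    intro l hl hle
    rcases hk with rfl | hk
    · rw [orderOf_one] at hle
      exact absurd (Nat.dvd_one.1 hle) hl.ne_one
    · obtain ⟨w, hw⟩ := hdvd1
      rw [hcK]
      exact dvd_quot hq hk hw hle
  have h2 : orderOf (x ^ p) = Nat.card K - 1 := by
    rw [Nat.Coprime.orderOf_pow (by rw [hx]; exact hp.symm), hx]
  have hord : orderOf (algebraMap F K e) = orderOf e :=
    orderOf_injective (algebraMap F K : F →* K) (algebraMap F K).injective e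
  have hdvd : orderOf e ∣ Nat.card K - 1 := by
    have h3 : Nat.card F - 1 ∣ Nat.card K - 1 := by
      rw [hcK]; simpa using Nat.sub_dvd_pow_sub_pow (Nat.card F) 1 (Module.finrank F K)
    exact hdvd1.trans h3
  have hpos : 0 < Nat.card K - 1 := by omega
  have h6 : 0 < orderOf e := Nat.pos_of_ne_zero fun h => by
    rw [h] at hdvd
    have := Nat.eq_zero_of_zero_dvd hdvd
    omega
  refine orderOf_eq_of_pow_and_pow_div_prime hpos ?_ ?_
  · rw [mul_pow, orderOf_dvd_iff_pow_eq_one.1 (hord ▸ hdvd : orderOf (algebraMap F K e) ∣ _),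
      orderOf_dvd_iff_pow_eq_one.1 (dvd_of_eq h2), one_mul]
  · intro l hl hlN h
    obtain ⟨w, hw⟩ := hdvd
    have h4 : l ∣ w := by
      have h4 : l ∣ (Nat.card K - 1) / orderOf e := by
        by_cases h5 : l ∣ orderOf e
        · exact hce l hl h5
        · rw [hw, Nat.mul_div_cancel_left _ h6]
          rw [hw] at hlN
          exact (hl.dvd_mul.1 hlN).resolve_left h5
      rwa [hw, Nat.mul_div_cancel_left _ h6] at h4
    have h7 : orderOf e ∣ (Nat.card K - 1) / l := by
      obtain ⟨w', rfl⟩ := h4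
      rw [hw]
      refine ⟨w', ?_⟩
      rw [show orderOf e * (l * w') = l * (orderOf e * w') by ring,
        Nat.mul_div_cancel_left _ hl.pos]
    rw [mul_pow, orderOf_dvd_iff_pow_eq_one.1 (hord ▸ h7 : orderOf (algebraMap F K e) ∣ _),
      one_mul] at h
    have h8 := orderOf_dvd_of_pow_eq_one h
    rw [h2] at h8
    have h9 := Nat.le_of_dvd (Nat.div_pos (Nat.le_of_dvd hpos hlN) hl.pos) h8
    exact absurd (Nat.div_lt_self hpos hl.one_lt) (by omega)

/-- There are `φ (|K| - 1)` generators. -/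
theorem totient_le {F : Type*} [Field F] [Finite F] {K : Type*} [Field K] [Algebra F K] [Finite K]
    (hK : 2 < Nat.card K) {p p' : ℕ} {e e' : F} (hp : p.Coprime (Nat.card K - 1))
    (hp' : p'.Coprime (Nat.card K - 1)) (he : e ≠ 0) (he' : e' ≠ 0)
    (hk : e = 1 ∧ e' = 1 ∨ Nat.card F - 1 ∣ Module.finrank F K) :
    Nat.totient (Nat.card K - 1) ≤ (Gens K p e ∩ Gens K p' e').ncard := by
  classical
  let _ : Fintype K := Fintype.ofFinite K
  have hcU : Fintype.card Kˣ = Nat.card K - 1 := by
    rw [Fintype.card_units, ← Nat.card_eq_fintype_card]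
  have h1 : ((Finset.univ.filter fun g : Kˣ => orderOf g = Nat.card K - 1).map
      ⟨Units.val, Units.val_injective⟩).card = Nat.totient (Nat.card K - 1) := by
    rw [Finset.card_map]
    exact IsCyclic.card_orderOf_eq_totient (by rw [hcU])
  rw [← h1, ← Set.ncard_coe_finset]
  refine Set.ncard_le_ncard (fun x hx => ?_) (Set.toFinite _)
  simp only [Finset.coe_map, Set.mem_image, Finset.mem_coe, Finset.mem_filter,
    Finset.mem_univ, true_and, Function.Embedding.coeFn_mk] at hx
  obtain ⟨g, hg, rfl⟩ := hx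
  have hg' : orderOf (g : K) = Nat.card K - 1 := by rw [orderOf_units, hg]
  exact ⟨mem_gens hK hp he (hk.imp And.left id) hg', mem_gens hK hp' he' (hk.imp And.right id) hg'⟩

/-- `p` is prime to `q ^ (s t) - 1` if it is prime to `q ^ s - 1` and `t > p` is prime. -/
theorem coprime_of {q s t p : ℕ} (hq : 2 ≤ q) (hp : 0 < p) (hc : p.Coprime (q ^ s - 1))
    (ht : t.Prime) (hpt : p < t) : p.Coprime (q ^ (s * t) - 1) := by
  rw [Nat.coprime_iff_gcd_eq_one]
  by_contra hne
  obtain ⟨l, hl, hl1⟩ := Nat.exists_prime_and_dvd hne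
  have hlp : l ∣ p := hl1.trans (Nat.gcd_dvd_left _ _)
  have hlN : l ∣ q ^ (s * t) - 1 := hl1.trans (Nat.gcd_dvd_right _ _)
  have : Fact l.Prime := ⟨hl⟩
  have hone : ∀ n, l ∣ q ^ n - 1 ↔ (q : ZMod l) ^ n = 1 := by
    intro n
    have h1 : 1 ≤ q ^ n := Nat.one_le_pow _ _ (by omega)
    rw [← ZMod.natCast_eq_zero_iff, Nat.cast_sub h1, sub_eq_zero]
    push_cast
    rfl
  have h1 : (q : ZMod l) ^ (s * t) = 1 := (hone _).1 hlN
  have hst : 0 < s * t := by
    refine Nat.pos_of_ne_zero fun h => ?_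
    have hs0 : s = 0 := (Nat.mul_eq_zero.1 h).resolve_right ht.pos.ne'
    rw [hs0, pow_zero, Nat.sub_self, Nat.coprime_zero_right] at hc
    rw [hc] at hlp
    exact hl.one_lt.ne' (Nat.dvd_one.1 hlp)
  have h0 : (q : ZMod l) ≠ 0 := by
    intro h
    rw [h, zero_pow hst.ne'] at h1
    exact zero_ne_one h1
  have h2 : orderOf (q : ZMod l) ∣ s * t := orderOf_dvd_of_pow_eq_one h1
  have h3 : orderOf (q : ZMod l) ∣ l - 1 := ZMod.orderOf_dvd_card_sub_one h0
  have h4 : orderOf (q : ZMod l) < t := by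
    have h5 := Nat.le_of_dvd (by have := hl.two_le; omega) h3
    have h6 := Nat.le_of_dvd hp hlp
    have := hl.two_le
    omega
  have h5 : (orderOf (q : ZMod l)).Coprime t := by
    rw [Nat.coprime_comm]
    refine (Nat.Prime.coprime_iff_not_dvd ht).2 fun h => ?_
    have h6 : 0 < orderOf (q : ZMod l) := Nat.pos_of_ne_zero fun h0 => by
      rw [h0] at h2
      have := Nat.eq_zero_of_zero_dvd h2
      omega
    have := Nat.le_of_dvd h6 h
    omega
  have h6 : orderOf (q : ZMod l) ∣ s := h5.dvd_of_dvd_mul_right h2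
  have h7 : l ∣ q ^ s - 1 := (hone s).2 (orderOf_dvd_iff_pow_eq_one.1 h6)
  have h8 := Nat.dvd_gcd hlp h7
  rw [Nat.coprime_iff_gcd_eq_one.1 hc] at h8
  exact hl.one_lt.ne' (Nat.dvd_one.1 h8)

/-- Infinite sequences with pairs of blocks. -/
theorem infinite {F : Type*} [Field F] [Finite F] (u : ℕ → F) (hu : ∀ n, u n ≠ 0)
    (p p' r s t : ℕ) (hp : 0 < p) (hp' : 0 < p')
    (hs : s = 1 ∨ s = Nat.card F - 1)
    (hc : p.Coprime (Nat.card F ^ s - 1)) (hc' : p'.Coprime (Nat.card F ^ s - 1))
    (ht : t.Prime) (hrt : r + p + p' < t)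
    (h : ∀ N, ∃ (a b a' b' : ℕ) (e e' : F), N ≤ a ∧ a + p * Nat.card F ^ (s * t) ≤ b ∧
      b ≤ a' ∧ a' ≤ b + r ∧ a' + p' * Nat.card F ^ (s * t) ≤ b' ∧
      PeriodicOn u p e a b ∧ PeriodicOn u p' e' a' b' ∧
      ¬ PeriodicOn u p e a b' ∧ (s = 1 → e = 1 ∧ e' = 1)) :
    {m : ℕ | ∃ g : F[X], Irreducible g ∧ g.natDegree = s * t ∧ g ∣ trunc u m}.Infinite := by
  classical
  intro hfin
  obtain ⟨M, hM⟩ := hfin.bddAbove
  let _ : Fintype F := Fintype.ofFinite F
  have hq : 2 ≤ Nat.card F := by
    rw [Nat.card_eq_fintype_card]; exact Fintype.one_lt_card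
  obtain ⟨n, hl, hcard⟩ := FiniteField.card F (ringChar F)
  have : Fact (ringChar F).Prime := ⟨hl⟩
  set l := ringChar F with hl'
  have hs0 : 0 < s := by
    rcases hs with h | h <;> omega
  set k := s * t with hk
  have hk3 : t ≤ k := by
    have : 1 * t ≤ s * t := Nat.mul_le_mul_right _ hs0
    omega
  have : NeZero k := ⟨by omega⟩
  let K := FiniteField.Extension F l k
  have hfK : Finite K := inferInstance
  have hcK : Nat.card K = Nat.card F ^ k := FiniteField.natCard_extension F l k
  have hrk : Module.finrank F K = k := FiniteField.finrank_extension F l k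
  have hqk : 2 ^ 2 ≤ Nat.card F ^ k :=
    (Nat.pow_le_pow_right (by omega) (by omega)).trans (Nat.pow_le_pow_left hq k)
  have hK : 2 < Nat.card K := by omega
  have hcop : ∀ p, 0 < p → p.Coprime (Nat.card F ^ s - 1) → p < t →
      p.Coprime (Nat.card K - 1) := by
    intro p h1 h2 h3
    rw [hcK]
    exact coprime_of hq h1 h2 ht h3
  obtain ⟨a, b, a', b', e, e', haN, hab, hba, hr, hab', h1, h2, h3, h4⟩ := h (M + 1)
  have hfree : ∀ a' b', a ≤ a' → Free u (Module.finrank F K) a' b' := by
    intro a' b' ha' m hm _ g hg1 hg2 hg3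
    rw [hrk] at hg2
    have := hM (show m ∈ {m : ℕ | ∃ g : F[X], Irreducible g ∧ g.natDegree = k ∧ g ∣ trunc u m}
      from ⟨g, hg1, hg2, hg3⟩)
    omega
  have key : ∀ (p a b : ℕ) (e : F), 0 < p → a + p * Nat.card F ^ k ≤ b →
      PeriodicOn u p e a b → e ≠ 0 := by
    rintro p a b e hp hab h rfl
    have h4 : p * 4 ≤ p * Nat.card F ^ k := Nat.mul_le_mul_left _ hqk
    have := h a le_rfl (by omega)
    rw [zero_mul] at this
    exact hu _ this
  have he := key _ a b e hp hab h1
  have he' := key _ a' b' e' hp' hab' h2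
  have hdk : e = 1 ∧ e' = 1 ∨ Nat.card F - 1 ∣ Module.finrank F K := by
    rcases hs with h | h
    · exact Or.inl (h4 h)
    · right; rw [hrk, hk, h]; exact dvd_mul_right _ _
  refine h3 (glue u hu K hK _ _ a b a' b' e e' hp hp' (by rw [hcK]; exact hab) hba
    (by rw [hcK]; exact hab') ?_ (hfree _ _ le_rfl) (hfree _ _ (by omega)) h1 h2)
  refine le_trans ?_ (totient_le hK (hcop p hp hc (by omega)) (hcop p' hp' hc' (by omega))
    he he' hdk)
  rw [hcK]
  have := le_totient hq (show 2 ≤ k by omega)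
  omega

theorem result.{v, w} (F : Type v) [Field F] [Finite F] (u : ℕ → F) (hu : ∀ n, u n ≠ 0) :
    (∀ (K : Type w) [Field K] [Algebra F K] [Finite K], 2 < Nat.card K →
      (∀ p p' a b a' b' : ℕ, ∀ e e' : F, 0 < p → 0 < p' →
        a + p * Nat.card K ≤ b → b ≤ a' → a' + p' * Nat.card K ≤ b' →
        PeriodicOn u p e a b → PeriodicOn u p' e' a' b' →
        Free u (Module.finrank F K) a b → Free u (Module.finrank F K) a' b' →
        a' - b + p + p' ≤ (Gens K p e ∩ Gens K p' e').ncard → PeriodicOn u p e a b') ∧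
      (∀ p a b : ℕ, ∀ e : F, 0 < p → a + p * Nat.card K ≤ b → PeriodicOn u p e a b →
        Free u (Module.finrank F K) a b → (Gens K p e).ncard < a + p) ∧
      ∀ p p' : ℕ, ∀ e e' : F, p.Coprime (Nat.card K - 1) → p'.Coprime (Nat.card K - 1) →
        e ≠ 0 → e' ≠ 0 → (e = 1 ∧ e' = 1 ∨ Nat.card F - 1 ∣ Module.finrank F K) →
        Nat.totient (Nat.card K - 1) ≤ (Gens K p e ∩ Gens K p' e').ncard) ∧
    ∀ p p' r s t : ℕ, 0 < p → 0 < p' → (s = 1 ∨ s = Nat.card F - 1) →
      p.Coprime (Nat.card F ^ s - 1) → p'.Coprime (Nat.card F ^ s - 1) →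
      t.Prime → r + p + p' < t →
      (∀ N, ∃ (a b a' b' : ℕ) (e e' : F), N ≤ a ∧ a + p * Nat.card F ^ (s * t) ≤ b ∧
        b ≤ a' ∧ a' ≤ b + r ∧ a' + p' * Nat.card F ^ (s * t) ≤ b' ∧
        PeriodicOn u p e a b ∧ PeriodicOn u p' e' a' b' ∧
        ¬ PeriodicOn u p e a b' ∧ (s = 1 → e = 1 ∧ e' = 1)) →
      {m : ℕ | ∃ g : F[X], Irreducible g ∧ g.natDegree = s * t ∧ g ∣ trunc u m}.Infinite :=
  ⟨fun K _ _ _ hK => ⟨fun p p' a b a' b' e e' h1 h2 h3 h4 h5 h6 h7 h8 h9 h10 =>
      glue u hu K hK p p' a b a' b' e e' h1 h2 h3 h4 h5 h10 h8 h9 h6 h7,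
      fun p a b e h1 h2 h3 h4 => early u hu K hK p a b e h1 h2 h4 h3,
      fun _ _ _ _ h1 h2 h3 h4 h5 => totient_le hK h1 h2 h3 h4 h5⟩,
    fun p p' r s t h1 h2 h3 h4 h5 h6 h7 h => infinite u hu p p' r s t h1 h2 h3 h4 h5 h6 h7 h⟩

end Pool.Agent.Results.MP_5f5f24_nt.PeriodicBlocks
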