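import Mathlib

set_option autoImplicit false

namespace Pool.Agent.Results.MP_5f5f24_nt.RecurrentTail

open Polynomial

/-- The polynomial `f_n = u_n X^n + ... + u_1 X + u_0` attached to a sequence `u`. -/
noncomputable def trunc {F : Type*} [Field F] (u : ℕ → F) (n : ℕ) : F[X] :=
  ∑ i ∈ Finset.range (n + 1), C (u i) * X ^ i

/-- The tail of `u` starting at position `N` is recurrent: each of its finite prefixes
occurs again at some later position. -/
def RecurrentFrom {F : Type*} (u : ℕ → F) (N : ℕ) : Prop :=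
  ∀ L : ℕ, ∃ m : ℕ, 1 ≤ m ∧ ∀ i < L, u (N + m + i) = u (N + i)

section aux

/-- Nested returns: from a recurrent sequence `v` one gets a strictly increasing sequence `M` with
`v (M b - M a + i) = v i` for all `i < M a`, `a ≤ b`. -/
lemma exists_nested {F : Type*} (v : ℕ → F)
    (hv : ∀ L : ℕ, ∃ m : ℕ, 1 ≤ m ∧ ∀ i < L, v (m + i) = v i) :
    ∃ M : ℕ → ℕ, StrictMono M ∧ ∀ a b : ℕ, a ≤ b → ∀ i < M a, v (M b - M a + i) = v i := by
  choose r hr1 hr2 using hv
  let M : ℕ → ℕ := fun j => Nat.rec 0 (fun _ x => x + r x) j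
  have hM0 : M 0 = 0 := rfl
  have hMs : ∀ j, M (j + 1) = M j + r (M j) := fun j => rfl
  have hmono : StrictMono M := by
    apply strictMono_nat_of_lt_succ
    intro j
    rw [hMs]
    have := hr1 (M j)
    omega
  refine ⟨M, hmono, ?_⟩
  intro a b hab
  induction b, hab using Nat.le_induction with
  | base => intro i hi; simp
  | succ b hab ih =>
    intro i hi
    have hle : M a ≤ M b := hmono.monotone hab
    have h1 : M (b + 1) - M a + i = r (M b) + (M b - M a + i) := by
      rw [hMs]; omega
    rw [h1, hr2 (M b) (M b - M a + i) (by omega)]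
    exact ih i hi

end aux

/-- Evaluation of the truncations. -/
lemma aeval_trunc {F : Type*} [Field F] {R : Type*} [CommRing R] [Algebra F R] (u : ℕ → F)
    (n : ℕ) (x : R) :
    aeval x (trunc u n) = ∑ i ∈ Finset.range (n + 1), algebraMap F R (u i) * x ^ i := by
  simp [trunc, map_sum]

lemma coeff_trunc {F : Type*} [Field F] (u : ℕ → F) (n k : ℕ) :
    (trunc u n).coeff k = if k ≤ n then u k else 0 := by
  simp only [trunc, finsetSum_coeff, coeff_C_mul, coeff_X_pow]
  by_cases hk : k ≤ n
  · rw [if_pos hk, Finset.sum_eq_single k]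
    · simp
    · intro b _ hb; simp [Ne.symm hb]
    · intro h; exact absurd (Finset.mem_range.mpr (by omega)) h
  · rw [if_neg hk]
    apply Finset.sum_eq_zero
    intro b hb
    have : b ≤ n := by have := Finset.mem_range.mp hb; omega
    have : k ≠ b := by omega
    simp [this]

lemma natDegree_trunc {F : Type*} [Field F] (u : ℕ → F) (hu : ∀ n, u n ≠ 0) (n : ℕ) :
    (trunc u n).natDegree = n := by
  apply le_antisymm
  · rw [natDegree_le_iff_coeff_eq_zero]
    intro k hk
    rw [coeff_trunc, if_neg (by omega)]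
  · apply le_natDegree_of_ne_zero
    rw [coeff_trunc, if_pos le_rfl]
    exact hu n

lemma trunc_ne_zero {F : Type*} [Field F] (u : ℕ → F) (hu : ∀ n, u n ≠ 0) (n : ℕ) :
    trunc u n ≠ 0 := by
  intro h
  have := coeff_trunc u n 0
  rw [h] at this
  simp at this
  exact hu 0 this.symm

/-- If some tail of `u` is recurrent, then every later truncation `f_n` divides infinitely many
truncations `f_m`, `m > n`, all of which are reducible. -/
theorem result {F : Type*} [Field F] [Finite F] (u : ℕ → F) (hu : ∀ n, u n ≠ 0) (N : ℕ)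
    (hrec : RecurrentFrom u N) (n : ℕ) (hn : 1 ≤ n) (hN : N ≤ n + 1) :
    {m : ℕ | n < m ∧ trunc u n ∣ trunc u m ∧ ¬ Irreducible (trunc u m)}.Infinite := by
  classical
  set f := trunc u n with hf
  have hf0 : f ≠ 0 := trunc_ne_zero u hu n
  have hfin : Module.Finite F (AdjoinRoot f) := (AdjoinRoot.powerBasis hf0).finite
  have hfinite : Finite (AdjoinRoot f) := Module.finite_of_finite F
  set x : AdjoinRoot f := AdjoinRoot.root f with hx
  -- the tail starting at n+1
  set v : ℕ → F := fun i => u (n + 1 + i) with hv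
  have hvrec : ∀ L : ℕ, ∃ m : ℕ, 1 ≤ m ∧ ∀ i < L, v (m + i) = v i := by
    intro L
    obtain ⟨m, hm1, hm2⟩ := hrec (L + (n + 1 - N))
    refine ⟨m, hm1, fun i hi => ?_⟩
    have h := hm2 (i + (n + 1 - N)) (by omega)
    have e1 : N + m + (i + (n + 1 - N)) = n + 1 + (m + i) := by omega
    have e2 : N + (i + (n + 1 - N)) = n + 1 + i := by omega
    rw [e1, e2] at h
    exact h
  obtain ⟨M, hMmono, hM⟩ := exists_nested v hvrec
  -- f(x) = 0
  have hfx : aeval x f = 0 := by
    rw [hx, AdjoinRoot.aeval_eq, AdjoinRoot.mk_self]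
  -- x is a unit
  have hxunit : IsUnit x := by
    have h1 : aeval x f = ∑ i ∈ Finset.range (n + 1), algebraMap F _ (u i) * x ^ i :=
      aeval_trunc u n x
    rw [hfx, Finset.sum_range_succ'] at h1
    have h2 : (∑ k ∈ Finset.range n, algebraMap F (AdjoinRoot f) (u (k + 1)) * x ^ (k + 1))
        = x * ∑ k ∈ Finset.range n, algebraMap F (AdjoinRoot f) (u (k + 1)) * x ^ k := by
      rw [Finset.mul_sum]
      apply Finset.sum_congr rfl
      intro k _
      ring
    rw [h2] at h1
    simp only [pow_zero, mul_one] at h1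
    have h3 : x * (-(∑ k ∈ Finset.range n, algebraMap F (AdjoinRoot f) (u (k + 1)) * x ^ k))
        = algebraMap F (AdjoinRoot f) (u 0) := by
      linear_combination h1
    have h4 : IsUnit (algebraMap F (AdjoinRoot f) (u 0)) :=
      (IsUnit.mk0 _ (hu 0)).map (algebraMap F (AdjoinRoot f))
    rw [← h3] at h4
    exact isUnit_of_mul_isUnit_left h4
  -- partial sums of the tail
  let V : ℕ → AdjoinRoot f := fun m => ∑ i ∈ Finset.range m, algebraMap F _ (v i) * x ^ i
  have hVadd : ∀ a b : ℕ, (∀ i < a, v (b + i) = v i) → V (b + a) = V b + x ^ b * V a := by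
    intro a b hab
    simp only [V]
    rw [Finset.sum_range_add, Finset.mul_sum]
    congr 1
    apply Finset.sum_congr rfl
    intro i hi
    rw [hab i (Finset.mem_range.mp hi), pow_add]
    ring
  have hS : ∀ m : ℕ, V m = 0 → f ∣ trunc u (n + m) := by
    intro m hm
    have h1 : aeval x (trunc u (n + m)) = 0 := by
      rw [aeval_trunc]
      have e : n + m + 1 = (n + 1) + m := by ring
      rw [e, Finset.sum_range_add]
      have h2 : ∑ i ∈ Finset.range (n + 1), algebraMap F (AdjoinRoot f) (u i) * x ^ i = 0 := by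
        rw [← aeval_trunc, ← hf, hfx]
      rw [h2, zero_add]
      have h3 : ∑ i ∈ Finset.range m, algebraMap F (AdjoinRoot f) (u (n + 1 + i)) * x ^ (n + 1 + i)
          = x ^ (n + 1) * V m := by
        simp only [V, Finset.mul_sum, hv]
        apply Finset.sum_congr rfl
        intro i _
        rw [pow_add]
        ring
      rw [h3, hm, mul_zero]
    rw [hx, AdjoinRoot.aeval_eq, AdjoinRoot.mk_eq_zero] at h1
    exact h1
  -- pigeonhole
  obtain ⟨y, hy⟩ := Finite.exists_infinite_fiber (fun j : ℕ => ((x ^ (M j), V (M j)) :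
    AdjoinRoot f × AdjoinRoot f))
  have hyinf : (( fun j : ℕ => ((x ^ (M j), V (M j)) : AdjoinRoot f × AdjoinRoot f)) ⁻¹' {y}).Infinite :=
    Set.infinite_coe_iff.mp hy
  obtain ⟨a, ha⟩ := hyinf.nonempty
  have key : ∀ b, a < b → (x ^ (M b), V (M b)) = y → V (M b - M a) = 0 := by
    intro b hab hb
    have hle : M a ≤ M b := hMmono.monotone hab.le
    have ha' : (x ^ (M a), V (M a)) = y := ha
    have hpair : (x ^ (M b), V (M b)) = (x ^ (M a), V (M a)) := by rw [hb, ha']
    have hpow : x ^ (M b) = x ^ (M a) := congrArg Prod.fst hpair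
    have hVV : V (M b) = V (M a) := congrArg Prod.snd hpair
    have h1 : x ^ (M b - M a) = 1 := by
      have : x ^ (M a) * x ^ (M b - M a) = x ^ (M a) * 1 := by
        rw [← pow_add, mul_one, Nat.add_sub_cancel' hle, hpow]
      exact (hxunit.pow (M a)).mul_left_cancel this
    have h2 := hVadd (M a) (M b - M a) (hM a b hab.le)
    rw [Nat.sub_add_cancel hle, h1, one_mul, hVV] at h2
    have h3 : V (M b - M a) + V (M a) = 0 + V (M a) := by rw [← h2, zero_add]
    exact add_right_cancel h3
  -- infinitely many m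
  rw [Set.infinite_iff_exists_gt] at hyinf
  rw [Set.infinite_iff_exists_gt]
  intro B
  obtain ⟨b, hb, hab⟩ := hyinf (a + B)
  have hMlt : b - a ≤ M b - M a := by
    have : ∀ k, a + k ≤ b → M a + k ≤ M (a + k) := by
      intro k _
      induction k with
      | zero => simp
      | succ k ih =>
        have h1 := ih (by omega)
        have h2 := hMmono (show a + k < a + (k + 1) by omega)
        omega
    have h := this (b - a) (by omega)
    have e : a + (b - a) = b := by omega
    rw [e] at h
    omega
  refine ⟨n + (M b - M a), ⟨by omega, hS _ (key b (by omega) hb), ?_⟩, by omega⟩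
  have hdvd := hS _ (key b (by omega) hb)
  intro hirr
  have hdeg1 : f.natDegree = n := natDegree_trunc u hu n
  have hdeg2 : (trunc u (n + (M b - M a))).natDegree = n + (M b - M a) := natDegree_trunc u hu _
  obtain ⟨g, hg⟩ := hdvd
  rcases hirr.isUnit_or_isUnit hg with h | h
  · have := natDegree_eq_zero_of_isUnit h
    omega
  · have hg0 : g.natDegree = 0 := natDegree_eq_zero_of_isUnit h
    have hgne : g ≠ 0 := h.ne_zero
    have := congrArg natDegree hg
    rw [natDegree_mul hf0 hgne, hg0, hdeg1, hdeg2] at this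
    omega

end Pool.Agent.Results.MP_5f5f24_nt.RecurrentTail
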